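import Pool.Agent.Run7.h33.NM.Main

/-!
# Closed sets in geometries with many transversals through each antiflag
-/

set_option autoImplicit false
set_option linter.unusedSectionVars false

namespace Run7.h33.AF

open SimpleGraph Finset Run7.h33.NM

section

variable {V : Type} [Fintype V] [DecidableEq V] {G : SimpleGraph V}

open Classical in
/-- The walks of length three from `u` to `v`. -/
noncomputable def wk (G : SimpleGraph V) (u v : V) : Finset (V × V) :=
  univ.filter fun x => G.Adj u x.1 ∧ G.Adj x.1 x.2 ∧ G.Adj x.2 v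

theorem mem_wk {u v : V} {x : V × V} :
    x ∈ wk G u v ↔ G.Adj u x.1 ∧ G.Adj x.1 x.2 ∧ G.Adj x.2 v := by simp [wk]

theorem card_wk_symm (u v : V) : (wk G u v).card = (wk G v u).card := by
  refine card_bij (fun x _ => (x.2, x.1)) ?_ ?_ ?_
  · intro x hx
    rw [mem_wk] at hx ⊢
    exact ⟨hx.2.2.symm, hx.2.1.symm, hx.1.symm⟩
  · intro x _ y _ h
    rw [Prod.mk.injEq] at h
    exact Prod.ext h.2 h.1
  · intro x hx
    rw [mem_wk] at hx
    refine ⟨(x.2, x.1), ?_, rfl⟩
    rw [mem_wk]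
    exact ⟨hx.2.2.symm, hx.2.1.symm, hx.1.symm⟩

/-- The two sorts of vertices (they can coincide) and the number of the transversals. -/
structure Geo (G : SimpleGraph V) (P L : Finset V) (q : ℕ) : Prop where
  c4 : NoC4 G
  cov : ∀ v, v ∈ P ∨ v ∈ L
  pl : ∀ u v, G.Adj u v → u ∈ P → v ∈ L
  lp : ∀ u v, G.Adj u v → u ∈ L → v ∈ P
  deg : ∀ v, q ≤ (nb G v).card
  tri : ∀ p ∈ P, ∀ l ∈ L, p ≠ l → ¬ G.Adj p l → q ≤ (wk G p l).card

theorem Geo.swap {P L : Finset V} {q : ℕ} (h : Geo G P L q) : Geo G L P q where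
  c4 := h.c4
  cov := fun v => (h.cov v).symm
  pl := h.lp
  lp := h.pl
  deg := h.deg
  tri := fun p hp l hl hpl hadj => by
    rw [card_wk_symm]
    exact h.tri l hl p hp hpl.symm fun h' => hadj h'.symm

/-- A vertex outside of a closed set has at most one neighbour inside. -/
theorem one_nb {K : Finset V} (hK : ClC G K) {z u u' : V} (hz : z ∉ K) (hu : u ∈ K)
    (hu' : u' ∈ K) (h : G.Adj z u) (h' : G.Adj z u') : u = u' := by
  by_contra hne
  exact hz (hK u hu u' hu' hne z h h')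

theorem card_inter_le_one {K : Finset V} (hK : ClC G K) {z : V} (hz : z ∉ K) :
    (nb G z ∩ K).card ≤ 1 := by
  rw [card_le_one]
  intro a ha b hb
  rw [mem_inter, mem_nb] at ha hb
  exact one_nb hK hz ha.2 hb.2 ha.1 hb.1

/-- The degrees are bounded. -/
theorem Geo.card_nb_le {P L : Finset V} {q A : ℕ} (h : Geo G P L q) (hq : 2 ≤ q)
    (hn : Fintype.card V ≤ A * q ^ 2) (u : V) : (nb G u).card ≤ 2 * A * q := by
  have h1 : ((nb G u).biUnion fun z => (nb G z).erase u).card =
      ∑ z ∈ nb G u, ((nb G z).erase u).card := by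
    refine card_biUnion ?_
    intro z hz z' hz' hne
    rw [mem_coe, mem_nb] at hz hz'
    rw [Function.onFun, Finset.disjoint_left]
    intro v hv hv'
    rw [mem_erase, mem_nb] at hv hv'
    exact hne (h.c4 u v z z' hv.1.symm hz.symm hv.2 hz'.symm hv'.2)
  have h2 : ∑ _z ∈ nb G u, (q - 1) ≤ ∑ z ∈ nb G u, ((nb G z).erase u).card := by
    refine sum_le_sum fun z hz => ?_
    rw [mem_nb] at hz
    rw [card_erase_of_mem (mem_nb.2 hz.symm)]
    have := h.deg z
    omega
  rw [sum_const, smul_eq_mul, ← h1] at h2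
  have h3 := h2.trans ((card_le_univ _).trans hn)
  have h4 : (nb G u).card * q ≤ 2 * A * q * q := by
    calc (nb G u).card * q ≤ (nb G u).card * (2 * (q - 1)) :=
          Nat.mul_le_mul_left _ (by omega)
      _ = 2 * ((nb G u).card * (q - 1)) := by ring
      _ ≤ 2 * (A * q ^ 2) := Nat.mul_le_mul_left _ h3
      _ = 2 * A * q * q := by ring
  exact Nat.le_of_mul_le_mul_right h4 (by omega)

theorem sum_nb_inter (z : V) (K : Finset V) {D : ℕ} (hD : ∀ v, (nb G v).card ≤ D)
    (hK : ClC G K) :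
    ∑ a ∈ nb G z, (nb G a ∩ K).card ≤ D * (nb G z ∩ K).card + D := by
  have h1 : ∑ a ∈ nb G z, (nb G a ∩ K).card =
      ∑ a ∈ nb G z ∩ K, (nb G a ∩ K).card + ∑ a ∈ nb G z \ K, (nb G a ∩ K).card := by
    rw [← sum_union]
    · rw [union_comm, sdiff_union_inter]
    · rw [Finset.disjoint_left]
      intro a ha hb
      exact (mem_sdiff.1 hb).2 (mem_inter.1 ha).2
  have h2 : ∑ a ∈ nb G z ∩ K, (nb G a ∩ K).card ≤ ∑ _a ∈ nb G z ∩ K, D :=
    sum_le_sum fun a _ => (card_le_card inter_subset_left).trans (hD a)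
  have h3 : ∑ a ∈ nb G z \ K, (nb G a ∩ K).card ≤ ∑ _a ∈ nb G z \ K, 1 :=
    sum_le_sum fun a ha => card_inter_le_one hK (mem_sdiff.1 ha).2
  rw [sum_const, smul_eq_mul] at h2 h3
  have h4 : (nb G z \ K).card ≤ D := (card_le_card sdiff_subset).trans (hD z)
  rw [h1, mul_comm D]
  omega

/-- The walks of length three between a vertex and the elements of a set, counted in two ways. -/
theorem sum_wk (v : V) (K : Finset V) :
    ∑ l ∈ K, (wk G v l).card = ∑ z ∈ nb G v, ∑ a ∈ nb G z, (nb G a ∩ K).card := by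
  classical
  have e1 : ∀ l, (wk G v l).card =
      ∑ z : V, ∑ a : V, if (G.Adj v z ∧ G.Adj z a) ∧ G.Adj a l then 1 else 0 := by
    intro l
    rw [wk, card_filter, ← univ_product_univ, sum_product]
    refine sum_congr rfl fun z _ => sum_congr rfl fun a _ => ?_
    simp only [and_assoc]
  have e2 : ∀ z, ∑ a ∈ nb G z, (nb G a ∩ K).card =
      ∑ a : V, ∑ l ∈ K, if G.Adj z a ∧ G.Adj a l then 1 else 0 := by
    intro z
    rw [nb, sum_filter]
    refine sum_congr rfl fun a _ => ?_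
    by_cases h : G.Adj z a
    · rw [if_pos h]
      have : nb G a ∩ K = K.filter fun l => G.Adj a l := by
        ext l
        rw [mem_inter, mem_nb, mem_filter]
        tauto
      rw [this, card_filter]
      exact sum_congr rfl fun l _ => by simp [h]
    · rw [if_neg h]
      symm
      exact sum_eq_zero fun l _ => by simp [h]
  calc ∑ l ∈ K, (wk G v l).card
      = ∑ l ∈ K, ∑ z : V, ∑ a : V,
          if (G.Adj v z ∧ G.Adj z a) ∧ G.Adj a l then 1 else 0 :=
        sum_congr rfl fun l _ => e1 l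
    _ = ∑ z : V, ∑ l ∈ K, ∑ a : V,
          if (G.Adj v z ∧ G.Adj z a) ∧ G.Adj a l then 1 else 0 := sum_comm
    _ = ∑ z : V, ∑ a : V, ∑ l ∈ K,
          if (G.Adj v z ∧ G.Adj z a) ∧ G.Adj a l then 1 else 0 :=
        sum_congr rfl fun z _ => sum_comm
    _ = ∑ z ∈ nb G v, ∑ a : V, ∑ l ∈ K, if G.Adj z a ∧ G.Adj a l then 1 else 0 := by
        rw [nb, sum_filter]
        refine sum_congr rfl fun z _ => ?_
        by_cases h : G.Adj v z
        · rw [if_pos h]
          exact sum_congr rfl fun a _ => sum_congr rfl fun l _ => by simp [h]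
        · rw [if_neg h]
          exact sum_eq_zero fun a _ => sum_eq_zero fun l _ => by simp [h]
    _ = _ := sum_congr rfl fun z _ => (e2 z).symm

/-- A closed set that does not contain `v ∈ P` has few elements in `L`. -/
theorem Geo.small {P L : Finset V} {q A : ℕ} (h : Geo G P L q) (hA : 1 ≤ A) (hq : 2 ≤ q)
    (hn : Fintype.card V ≤ A * q ^ 2) {K : Finset V} (hK : ClC G K) {v : V} (hv : v ∈ P)
    (hvK : v ∉ K) : (K ∩ L).card ≤ 13 * A ^ 2 * q := by
  obtain ⟨D, hDe⟩ : ∃ D, D = 2 * A * q := ⟨_, rfl⟩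
  have hD : ∀ v, (nb G v).card ≤ D := fun v => by
    rw [hDe]
    exact h.card_nb_le hq hn v
  have h1 : ∑ l ∈ K, (wk G v l).card ≤ 3 * D ^ 2 := by
    rw [sum_wk]
    calc ∑ z ∈ nb G v, ∑ a ∈ nb G z, (nb G a ∩ K).card
        ≤ ∑ z ∈ nb G v, (D * (nb G z ∩ K).card + D) :=
          sum_le_sum fun z _ => sum_nb_inter z K hD hK
      _ = D * ∑ z ∈ nb G v, (nb G z ∩ K).card + (nb G v).card * D := by
          rw [sum_add_distrib, ← mul_sum, sum_const, smul_eq_mul]
      _ ≤ D * (D * (nb G v ∩ K).card + D) + D * D :=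
          Nat.add_le_add (Nat.mul_le_mul_left _ (sum_nb_inter v K hD hK))
            (Nat.mul_le_mul_right _ (hD v))
      _ ≤ D * (D * 1 + D) + D * D := by
          have := card_inter_le_one hK hvK
          gcongr
      _ = 3 * D ^ 2 := by ring
  have h2 : ∑ _l ∈ (K ∩ L) \ nb G v, q ≤ ∑ l ∈ K, (wk G v l).card := by
    refine (sum_le_sum fun l hl => ?_).trans (sum_le_sum_of_subset (f := fun l =>
      (wk G v l).card) (s := (K ∩ L) \ nb G v) ?_)
    · rw [mem_sdiff, mem_inter, mem_nb] at hl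
      refine h.tri v hv l hl.1.2 ?_ hl.2
      rintro rfl
      exact hvK hl.1.1
    · intro l hl
      rw [mem_sdiff, mem_inter] at hl
      exact hl.1.1
  rw [sum_const, smul_eq_mul] at h2
  have h3 : (K ∩ L).card ≤ ((K ∩ L) \ nb G v).card + 1 := by
    have e : (K ∩ L).card ≤ ((K ∩ L) \ nb G v).card + (nb G v ∩ K).card := by
      refine (card_le_card (t := ((K ∩ L) \ nb G v) ∪ (nb G v ∩ K)) ?_).trans
        (card_union_le _ _)
      intro l hl
      by_cases h4 : l ∈ nb G v
      · exact mem_union_right _ (mem_inter.2 ⟨h4, (mem_inter.1 hl).1⟩)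
      · exact mem_union_left _ (mem_sdiff.2 ⟨hl, h4⟩)
    have := card_inter_le_one hK hvK
    omega
  have h4 : ((K ∩ L) \ nb G v).card * q ≤ 12 * A ^ 2 * q * q := by
    calc ((K ∩ L) \ nb G v).card * q ≤ 3 * D ^ 2 := h2.trans h1
      _ = 12 * A ^ 2 * q * q := by rw [hDe]; ring
  have h5 := Nat.le_of_mul_le_mul_right h4 (by omega)
  have h6 : 1 ≤ A ^ 2 * q := Nat.mul_pos (Nat.pow_pos (by omega)) (by omega)
  have e6 : 13 * A ^ 2 * q = 12 * A ^ 2 * q + A ^ 2 * q := by ring
  omega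

/-- Few vertices have many neighbours in a set. -/
theorem heavy (hG : NoC4 G) (T S : Finset V) :
    ∑ w ∈ T, (nb G w ∩ S).card ≤ S.card + T.card ^ 2 := by
  classical
  have e1 : ∑ w ∈ T, (nb G w ∩ S).card = ∑ s ∈ S, (nb G s ∩ T).card := by
    have h1 : ∀ w, (nb G w ∩ S).card = ∑ s ∈ S, if G.Adj w s then 1 else 0 := by
      intro w
      rw [← card_filter]
      congr 1
      ext s
      rw [mem_inter, mem_nb, mem_filter]
      tauto
    have h2 : ∀ s, (nb G s ∩ T).card = ∑ w ∈ T, if G.Adj w s then 1 else 0 := by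
      intro s
      rw [← card_filter]
      congr 1
      ext w
      rw [mem_inter, mem_nb, mem_filter, G.adj_comm]
      tauto
    rw [sum_congr rfl fun w _ => h1 w, sum_congr rfl fun s _ => h2 s, sum_comm]
  have e2 : ∑ s ∈ S, (nb G s ∩ T).card * (nb G s ∩ T).card ≤
      ∑ s ∈ S, (nb G s ∩ T).card + T.card ^ 2 := by
    have h1 : ∀ s, (nb G s ∩ T).card * (nb G s ∩ T).card =
        (nb G s ∩ T).card + (nb G s ∩ T).offDiag.card := by
      intro s
      rw [offDiag_card]
      have : (nb G s ∩ T).card ≤ (nb G s ∩ T).card * (nb G s ∩ T).card := Nat.le_mul_self _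
      omega
    rw [sum_congr rfl fun s _ => h1 s, sum_add_distrib]
    refine Nat.add_le_add_left ?_ _
    have h2 : (S.biUnion fun s => (nb G s ∩ T).offDiag).card =
        ∑ s ∈ S, (nb G s ∩ T).offDiag.card := by
      refine card_biUnion ?_
      intro s _ s' _ hne
      rw [Function.onFun, Finset.disjoint_left]
      rintro ⟨a, b⟩ h3 h4
      simp only [mem_offDiag, mem_inter, mem_nb] at h3 h4
      exact hne (hG a b s s' h3.2.2 h3.1.1 h3.2.1.1 h4.1.1 h4.2.1.1)
    rw [← h2, pow_two, ← card_product]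
    refine card_le_card ?_
    rintro ⟨a, b⟩ h3
    simp only [mem_biUnion, mem_offDiag, mem_inter, mem_product] at h3 ⊢
    obtain ⟨s, -, h4⟩ := h3
    exact ⟨h4.1.2, h4.2.1.2⟩
  have e3 : 2 * ∑ s ∈ S, (nb G s ∩ T).card ≤
      ∑ s ∈ S, (nb G s ∩ T).card * (nb G s ∩ T).card + S.card := by
    rw [mul_sum, card_eq_sum_ones, ← sum_add_distrib]
    refine sum_le_sum fun s _ => ?_
    obtain ⟨x, hx⟩ : ∃ x, x = (nb G s ∩ T).card := ⟨_, rfl⟩
    rw [← hx]
    rcases x with _ | _ | x
    · omega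
    · omega
    · have e : (x + 1 + 1) * (x + 1 + 1) = 2 * (x + 1 + 1) + x * (x + 2) := by ring
      omega
  rw [e1]
  omega

/-- A bound for the number of vertices with many neighbours in a set. -/
theorem heavy_card (hG : NoC4 G) (U S : Finset V) {h t : ℕ}
    (hht : S.card + t ^ 2 < t * h) (hU : ∀ w ∈ U, h ≤ (nb G w ∩ S).card) : U.card < t := by
  by_contra hcon
  obtain ⟨T, hT, hTc⟩ := exists_subset_card_eq (not_lt.1 hcon)
  have h1 := heavy hG T S
  have h2 : ∑ _w ∈ T, h ≤ ∑ w ∈ T, (nb G w ∩ S).card := sum_le_sum fun w hw => hU w (hT hw)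
  rw [sum_const, smul_eq_mul, hTc] at h2
  rw [hTc] at h1
  omega

end

end Run7.h33.AF
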