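import Pool.Agent.Run7.h33.AF.Geo

/-!
# Quadratic growth of closed sets
-/

set_option autoImplicit false
set_option linter.unusedSectionVars false

namespace Run7.h33.AF

open SimpleGraph Finset Run7.h33.NM

section

variable {V : Type} [Fintype V] [DecidableEq V] {G : SimpleGraph V}

open Classical in
/-- The pairs of different non-adjacent elements of a set, of different sorts. -/
noncomputable def prs (G : SimpleGraph V) (P L K : Finset V) : Finset (V × V) :=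
  ((K ∩ P) ×ˢ (K ∩ L)).filter fun x => x.1 ≠ x.2 ∧ ¬ G.Adj x.1 x.2

open Classical in
/-- The pairs whose first element has few neighbours inside. -/
noncomputable def lprs (G : SimpleGraph V) (P L K : Finset V) (q : ℕ) : Finset (V × V) :=
  (prs G P L K).filter fun x => (nb G x.1 ∩ K).card ≤ q / 2

theorem mem_prs {P L K : Finset V} {x : V × V} : x ∈ prs G P L K ↔
    ((x.1 ∈ K ∧ x.1 ∈ P) ∧ x.2 ∈ K ∧ x.2 ∈ L) ∧ x.1 ≠ x.2 ∧ ¬ G.Adj x.1 x.2 := by
  simp [prs, mem_product]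

/-- Many pairs have a first element with few neighbours inside. -/
theorem Geo.card_lprs {P L : Finset V} {q A : ℕ} (h : Geo G P L q) (hA : 1 ≤ A)
    (hq : 1000 * A ^ 2 ≤ q) (hn : Fintype.card V ≤ A * q ^ 2) {K : Finset V} (hK : ClC G K)
    {v : V} (hv : v ∈ P) (hvK : v ∉ K) (hP : 90 * A ^ 2 ≤ (K ∩ P).card)
    (hL : 300 ≤ (K ∩ L).card) :
    (K ∩ P).card * (K ∩ L).card ≤ 4 * (lprs G P L K q).card := by
  classical
  have hA2 : 1 ≤ A ^ 2 := Nat.pow_pos (by omega)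
  have hsmall := h.small hA (by omega) hn hK hv hvK
  have hnb : ∀ w ∈ K ∩ P, nb G w ∩ K = nb G w ∩ (K ∩ L) := by
    intro w hw
    ext l
    simp only [mem_inter, mem_nb]
    constructor
    · rintro ⟨h1, h2⟩
      exact ⟨h1, h2, h.pl w l h1 (mem_inter.1 hw).2⟩
    · rintro ⟨h1, h2, -⟩
      exact ⟨h1, h2⟩
  -- the vertices with many neighbours inside
  have h1 : ((K ∩ P).filter fun w => q / 2 + 1 ≤ (nb G w ∩ (K ∩ L)).card).card < 28 * A ^ 2 := by
    refine heavy_card h.c4 _ (K ∩ L) (h := q / 2 + 1) ?_ fun w hw => (mem_filter.1 hw).2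
    have e1 : 28 * A ^ 2 * (2 * (q / 2 + 1)) ≥ 28 * A ^ 2 * (q + 1) :=
      Nat.mul_le_mul_left _ (by omega)
    have e2 : (28 * A ^ 2) ^ 2 = 784 * A ^ 2 * A ^ 2 := by ring
    have e3 : 784 * A ^ 2 * A ^ 2 ≤ A ^ 2 * q := by
      calc 784 * A ^ 2 * A ^ 2 ≤ q * A ^ 2 := Nat.mul_le_mul_right _ (by omega)
        _ = A ^ 2 * q := mul_comm _ _
    have e4 : 28 * A ^ 2 * (q + 1) = 2 * (13 * A ^ 2 * q) + 2 * (A ^ 2 * q) + 28 * A ^ 2 := by
      ring
    have e5 : 28 * A ^ 2 * (2 * (q / 2 + 1)) = 2 * (28 * A ^ 2 * (q / 2 + 1)) := by ring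
    omega
  have h2 : ((K ∩ P).filter fun w => (K ∩ L).card / 8 + 1 ≤
      (nb G w ∩ (K ∩ L)).card).card < 17 := by
    refine heavy_card h.c4 _ (K ∩ L) (h := (K ∩ L).card / 8 + 1) ?_
      fun w hw => (mem_filter.1 hw).2
    omega
  obtain ⟨Gd, hGd⟩ : ∃ Gd, Gd = (K ∩ P).filter fun w => (nb G w ∩ (K ∩ L)).card ≤ q / 2 ∧
    (nb G w ∩ (K ∩ L)).card ≤ (K ∩ L).card / 8 := ⟨_, rfl⟩
  have h3 : (K ∩ P).card ≤ Gd.card + (28 * A ^ 2 - 1) + 16 := by
    have h4 : K ∩ P ⊆ (Gd ∪ (K ∩ P).filter fun w => q / 2 + 1 ≤ (nb G w ∩ (K ∩ L)).card) ∪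
        (K ∩ P).filter fun w => (K ∩ L).card / 8 + 1 ≤ (nb G w ∩ (K ∩ L)).card := by
      intro w hw
      by_cases h5 : q / 2 + 1 ≤ (nb G w ∩ (K ∩ L)).card
      · exact mem_union_left _ (mem_union_right _ (mem_filter.2 ⟨hw, h5⟩))
      · by_cases h6 : (K ∩ L).card / 8 + 1 ≤ (nb G w ∩ (K ∩ L)).card
        · exact mem_union_right _ (mem_filter.2 ⟨hw, h6⟩)
        · refine mem_union_left _ (mem_union_left _ ?_)
          rw [hGd]
          exact mem_filter.2 ⟨hw, by omega, by omega⟩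
    have h5 := (card_le_card h4).trans ((card_union_le _ _).trans
      (Nat.add_le_add_right (card_union_le _ _) _))
    omega
  have h4 : (K ∩ P).card ≤ 2 * Gd.card := by omega
  have h5 : (lprs G P L K q).card ≥ ∑ w ∈ Gd, ((K ∩ L).filter fun l =>
      w ≠ l ∧ ¬ G.Adj w l).card := by
    have h6 : (Gd.sigma fun w => (K ∩ L).filter fun l => w ≠ l ∧ ¬ G.Adj w l).card =
        ∑ w ∈ Gd, ((K ∩ L).filter fun l => w ≠ l ∧ ¬ G.Adj w l).card := card_sigma _ _
    rw [← h6]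
    refine card_le_card_of_injOn (fun x => (x.1, x.2)) ?_ ?_
    · rintro ⟨w, l⟩ hx
      simp only [mem_coe, mem_sigma, mem_filter, hGd] at hx
      obtain ⟨⟨h7, h8, h9⟩, h10, h11⟩ := hx
      simp only [mem_coe, lprs, mem_filter, mem_prs]
      refine ⟨⟨⟨⟨(mem_inter.1 h7).1, (mem_inter.1 h7).2⟩, (mem_inter.1 h10).1,
        (mem_inter.1 h10).2⟩, h11⟩, ?_⟩
      rw [hnb w h7]
      exact h8
    · rintro ⟨w, l⟩ _ ⟨w', l'⟩ _ h7
      simp only [Prod.mk.injEq] at h7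
      obtain ⟨rfl, rfl⟩ := h7
      rfl
  have h6 : ∑ _w ∈ Gd, (K ∩ L).card ≤ ∑ w ∈ Gd, 2 * ((K ∩ L).filter fun l =>
      w ≠ l ∧ ¬ G.Adj w l).card := by
    refine sum_le_sum fun w hw => ?_
    rw [hGd, mem_filter] at hw
    have h7 : K ∩ L ⊆ ((K ∩ L).filter fun l => w ≠ l ∧ ¬ G.Adj w l) ∪
        ((nb G w ∩ (K ∩ L)) ∪ {w}) := by
      intro l hl
      by_cases h8 : w = l
      · subst h8
        exact mem_union_right _ (mem_union_right _ (mem_singleton_self _))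
      · by_cases h9 : G.Adj w l
        · exact mem_union_right _ (mem_union_left _ (mem_inter.2 ⟨mem_nb.2 h9, hl⟩))
        · exact mem_union_left _ (mem_filter.2 ⟨hl, h8, h9⟩)
    have h8 := (card_le_card h7).trans ((card_union_le _ _).trans
      (Nat.add_le_add_left (card_union_le _ _) _))
    rw [card_singleton] at h8
    have := hw.2.2
    omega
  rw [sum_const, smul_eq_mul, ← mul_sum] at h6
  calc (K ∩ P).card * (K ∩ L).card ≤ 2 * Gd.card * (K ∩ L).card := Nat.mul_le_mul_right _ h4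
    _ = 2 * (Gd.card * (K ∩ L).card) := by ring
    _ ≤ 2 * (2 * (lprs G P L K q).card) := by omega
    _ = _ := by ring

open Classical in
/-- The walks of length three whose first inner vertex is outside. -/
noncomputable def wko (G : SimpleGraph V) (K : Finset V) (u v : V) : Finset (V × V) :=
  (wk G u v).filter fun x => x.1 ∉ K

theorem mem_wko {K : Finset V} {u v : V} {x : V × V} : x ∈ wko G K u v ↔
    (G.Adj u x.1 ∧ G.Adj x.1 x.2 ∧ G.Adj x.2 v) ∧ x.1 ∉ K := by simp [wko, mem_wk]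

theorem Geo.card_wko {P L : Finset V} {q : ℕ} (h : Geo G P L q) {K : Finset V}
    (hK : ClC G K) {w l : V} (hw : w ∈ K ∩ P) (hl : l ∈ K ∩ L) (hwl : w ≠ l)
    (hadj : ¬ G.Adj w l) (hc : (nb G w ∩ K).card ≤ q / 2 ∨ (nb G l ∩ K).card ≤ q / 2) :
    q ≤ 2 * (wko G K w l).card := by
  classical
  rw [mem_inter] at hw hl
  have h1 := h.tri w hw.2 l hl.2 hwl hadj
  have h2 : (wk G w l).card = ((wk G w l).filter fun x => x.1 ∈ K).card +
      (wko G K w l).card := (card_filter_add_card_filter_not (s := wk G w l) _).symm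
  have h3 : ((wk G w l).filter fun x => x.1 ∈ K).card ≤ (nb G w ∩ K).card := by
    refine card_le_card_of_injOn (fun x => x.1) ?_ ?_
    · intro x hx
      simp only [mem_coe, mem_filter, mem_wk, mem_inter, mem_nb] at hx ⊢
      exact ⟨hx.1.1, hx.2⟩
    · intro x hx y hy hxy
      simp only [mem_coe, mem_filter, mem_wk] at hx hy hxy
      refine Prod.ext hxy (h.c4 x.1 l x.2 y.2 ?_ hx.1.2.1.symm hx.1.2.2 ?_ hy.1.2.2)
      · rintro h4
        exact hadj (h4 ▸ hx.1.1)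
      · rw [hxy]
        exact hy.1.2.1.symm
  have h4 : ((wk G w l).filter fun x => x.1 ∈ K).card ≤ (nb G l ∩ K).card := by
    refine card_le_card_of_injOn (fun x => x.2) ?_ ?_
    · intro x hx
      simp only [mem_coe, mem_filter, mem_wk, mem_inter, mem_nb] at hx ⊢
      refine ⟨hx.1.2.2.symm, hK x.1 hx.2 l hl.1 ?_ x.2 hx.1.2.1.symm hx.1.2.2⟩
      rintro h5
      exact hadj (h5 ▸ hx.1.1)
    · intro x hx y hy hxy
      simp only [mem_coe, mem_filter, mem_wk] at hx hy hxy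
      refine Prod.ext (h.c4 x.2 w x.1 y.1 ?_ hx.1.2.1 hx.1.1.symm ?_ hy.1.1.symm) hxy
      · rintro h5
        exact hadj (h5 ▸ hx.1.2.2)
      · rw [hxy]
        exact hy.1.2.1
  rcases hc with hc | hc <;> omega

open Classical in
/-- The pairs of adjacent vertices outside, with neighbours inside. -/
noncomputable def ext (G : SimpleGraph V) (P L K : Finset V) : Finset (V × V) :=
  univ.filter fun x => (x.1 ∉ K ∧ x.2 ∉ K ∧ G.Adj x.1 x.2) ∧ (∃ w ∈ K ∩ P, G.Adj x.1 w) ∧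
    ∃ l ∈ K ∩ L, G.Adj x.2 l

theorem mem_ext {P L K : Finset V} {x : V × V} : x ∈ ext G P L K ↔
    (x.1 ∉ K ∧ x.2 ∉ K ∧ G.Adj x.1 x.2) ∧ (∃ w ∈ K ∩ P, G.Adj x.1 w) ∧
    ∃ l ∈ K ∩ L, G.Adj x.2 l := by simp [ext]

theorem wko_out {K : Finset V} (hK : ClC G K) {w l : V} (hw : w ∈ K)
    (hadj : ¬ G.Adj w l) {x : V × V} (hx : x ∈ wko G K w l) : x.2 ∉ K := by
  rw [mem_wko] at hx
  intro h1
  have h2 := one_nb hK hx.2 hw h1 hx.1.1.symm hx.1.2.1
  exact hadj (h2 ▸ hx.1.2.2)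

theorem Geo.card_ext {P L : Finset V} {q : ℕ} (h : Geo G P L q) {K : Finset V}
    (hK : ClC G K) (X : Finset (V × V)) (hX : X ⊆ prs G P L K)
    (hX2 : ∀ x ∈ X, (nb G x.1 ∩ K).card ≤ q / 2 ∨ (nb G x.2 ∩ K).card ≤ q / 2) :
    q * X.card ≤ 2 * (ext G P L K).card := by
  classical
  have h1 : (X.biUnion fun x => wko G K x.1 x.2).card = ∑ x ∈ X, (wko G K x.1 x.2).card := by
    refine card_biUnion ?_
    intro x hx y hy hne
    have hx1 := mem_prs.1 (hX hx)
    have hy1 := mem_prs.1 (hX hy)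
    rw [Function.onFun, Finset.disjoint_left]
    intro e he he'
    have ho := wko_out hK hx1.1.1.1 hx1.2.2 he
    rw [mem_wko] at he he'
    refine hne (Prod.ext ?_ ?_)
    · exact one_nb hK he.2 hx1.1.1.1 hy1.1.1.1 he.1.1.symm he'.1.1.symm
    · exact one_nb hK ho hx1.1.2.1 hy1.1.2.1 he.1.2.2 he'.1.2.2
  have h2 : (X.biUnion fun x => wko G K x.1 x.2) ⊆ ext G P L K := by
    intro e he
    rw [mem_biUnion] at he
    obtain ⟨x, hx, he⟩ := he
    have hx1 := mem_prs.1 (hX hx)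
    have ho := wko_out hK hx1.1.1.1 hx1.2.2 he
    rw [mem_wko] at he
    rw [mem_ext]
    exact ⟨⟨he.2, ho, he.1.2.1⟩, ⟨x.1, mem_inter.2 hx1.1.1, he.1.1.symm⟩,
      ⟨x.2, mem_inter.2 hx1.1.2, he.1.2.2⟩⟩
  have h3 : ∑ _x ∈ X, q ≤ ∑ x ∈ X, 2 * (wko G K x.1 x.2).card := by
    refine sum_le_sum fun x hx => ?_
    have hx1 := mem_prs.1 (hX hx)
    exact h.card_wko hK (mem_inter.2 hx1.1.1) (mem_inter.2 hx1.1.2) hx1.2.1 hx1.2.2 (hX2 x hx)
  rw [sum_const, smul_eq_mul, ← mul_sum, ← h1] at h3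
  calc q * X.card = X.card * q := mul_comm _ _
    _ ≤ _ := h3
    _ ≤ _ := Nat.mul_le_mul_left _ (card_le_card h2)

/-- The number of the outer pairs. -/
theorem Geo.ext_big {P L : Finset V} {q A : ℕ} (h : Geo G P L q) (hA : 1 ≤ A)
    (hq : 1000 * A ^ 2 ≤ q) (hn : Fintype.card V ≤ A * q ^ 2) {K : Finset V} (hK : ClC G K)
    (hne : K ≠ univ) (hP : 300 * A ^ 2 ≤ (K ∩ P).card) (hL : 300 * A ^ 2 ≤ (K ∩ L).card) :
    q * ((K ∩ P).card * (K ∩ L).card) ≤ 8 * (ext G P L K).card := by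
  classical
  have hA2 : 1 ≤ A ^ 2 := Nat.pow_pos (by omega)
  obtain ⟨v, hv⟩ : ∃ v, v ∉ K := by
    by_contra hcon
    push Not at hcon
    exact hne (eq_univ_iff_forall.2 hcon)
  have key : ∃ X ⊆ prs G P L K, (∀ x ∈ X, (nb G x.1 ∩ K).card ≤ q / 2 ∨
      (nb G x.2 ∩ K).card ≤ q / 2) ∧ (K ∩ P).card * (K ∩ L).card ≤ 4 * X.card := by
    rcases h.cov v with h1 | h1
    · refine ⟨lprs G P L K q, filter_subset _ _, fun x hx => Or.inl (mem_filter.1 hx).2, ?_⟩
      exact h.card_lprs hA hq hn hK h1 hv (by omega) (by omega)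
    · refine ⟨(lprs G L P K q).image Prod.swap, ?_, ?_, ?_⟩
      · intro x hx
        rw [mem_image] at hx
        obtain ⟨y, hy, rfl⟩ := hx
        have h2 := mem_prs.1 (mem_filter.1 hy).1
        rw [mem_prs]
        exact ⟨⟨h2.1.2, h2.1.1⟩, h2.2.1.symm, fun h3 => h2.2.2 h3.symm⟩
      · intro x hx
        rw [mem_image] at hx
        obtain ⟨y, hy, rfl⟩ := hx
        exact Or.inr (mem_filter.1 hy).2
      · rw [card_image_of_injective _ Prod.swap_injective, mul_comm (K ∩ P).card]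
        exact h.swap.card_lprs hA hq hn hK h1 hv (by omega) (by omega)
  obtain ⟨X, hX, hX2, hX3⟩ := key
  have h1 := h.card_ext hK X hX hX2
  calc q * ((K ∩ P).card * (K ∩ L).card) ≤ q * (4 * X.card) := Nat.mul_le_mul_left _ hX3
    _ = 4 * (q * X.card) := by ring
    _ ≤ 4 * (2 * (ext G P L K).card) := Nat.mul_le_mul_left _ h1
    _ = _ := by ring

/-- Quadratic growth. -/
theorem Geo.grow {P L : Finset V} {q A : ℕ} (h : Geo G P L q) (hA : 1 ≤ A)
    (hq : 1000 * A ^ 2 ≤ q) (hn : Fintype.card V ≤ A * q ^ 2) {K : Finset V} (hK : ClC G K)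
    (hne : K ≠ univ) (hP : 300 * A ^ 2 ≤ (K ∩ P).card) (hL : 300 * A ^ 2 ≤ (K ∩ L).card) :
    ∃ v, v ∉ K ∧ ∀ K', ClC G K' → insert v K ⊆ K' →
      (K ∩ P).card * (K ∩ L).card ≤ 16 * A * (K' ∩ P).card := by
  classical
  have hA2 : 1 ≤ A ^ 2 := Nat.pow_pos (by omega)
  have hE := h.ext_big hA hq hn hK hne hP hL
  -- the pairs seen from `v`
  obtain ⟨F, hF⟩ : ∃ F : V → Finset (V × V), F = fun v => (ext G P L K).filter fun x =>
    G.Adj x.1 v ∧ v ≠ x.2 := ⟨_, rfl⟩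
  have h1 : ∑ v ∈ univ \ K, (F v).card = ∑ x ∈ ext G P L K,
      ((univ \ K).filter fun v => G.Adj x.1 v ∧ v ≠ x.2).card := by
    have e1 : ∀ v, (F v).card = ∑ x ∈ ext G P L K, if G.Adj x.1 v ∧ v ≠ x.2 then 1 else 0 := by
      intro v
      rw [hF, card_filter]
    have e2 : ∀ x : V × V, ((univ \ K).filter fun v => G.Adj x.1 v ∧ v ≠ x.2).card =
        ∑ v ∈ univ \ K, if G.Adj x.1 v ∧ v ≠ x.2 then 1 else 0 := fun x => card_filter _ _
    rw [sum_congr rfl fun v _ => e1 v, sum_congr rfl fun x _ => e2 x, sum_comm]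
  have h2 : ∑ _x ∈ ext G P L K, (q - 2) ≤ ∑ x ∈ ext G P L K,
      ((univ \ K).filter fun v => G.Adj x.1 v ∧ v ≠ x.2).card := by
    refine sum_le_sum fun x hx => ?_
    rw [mem_ext] at hx
    have h3 : nb G x.1 ⊆ ((univ \ K).filter fun v => G.Adj x.1 v ∧ v ≠ x.2) ∪
        ((nb G x.1 ∩ K) ∪ {x.2}) := by
      intro v hv
      by_cases h4 : v = x.2
      · exact mem_union_right _ (mem_union_right _ (mem_singleton.2 h4))
      · by_cases h5 : v ∈ K
        · exact mem_union_right _ (mem_union_left _ (mem_inter.2 ⟨hv, h5⟩))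
        · exact mem_union_left _ (mem_filter.2 ⟨mem_sdiff.2 ⟨mem_univ _, h5⟩,
            mem_nb.1 hv, h4⟩)
    have h4 := (card_le_card h3).trans ((card_union_le _ _).trans
      (Nat.add_le_add_left (card_union_le _ _) _))
    rw [card_singleton] at h4
    have h5 := card_inter_le_one hK hx.1.1
    have h6 := h.deg x.1
    omega
  rw [sum_const, smul_eq_mul, ← h1] at h2
  -- a good vertex
  have h3 : ∃ v ∈ univ \ K, (K ∩ P).card * (K ∩ L).card ≤ 16 * A * (F v).card := by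
    by_contra hcon
    push Not at hcon
    have h4 : ∑ v ∈ univ \ K, 16 * A * (F v).card < ∑ _v ∈ univ \ K,
        (K ∩ P).card * (K ∩ L).card := by
      refine sum_lt_sum_of_nonempty ?_ hcon
      rw [nonempty_iff_ne_empty]
      intro h5
      rw [sdiff_eq_empty_iff_subset] at h5
      exact hne (subset_antisymm (subset_univ _) h5)
    rw [sum_const, smul_eq_mul, ← mul_sum] at h4
    have h5 : (univ \ K).card ≤ A * q ^ 2 := (card_le_univ _).trans hn
    have h6 : 16 * A * ∑ v ∈ univ \ K, (F v).card <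
        A * q ^ 2 * ((K ∩ P).card * (K ∩ L).card) :=
      lt_of_lt_of_le h4 (Nat.mul_le_mul_right _ h5)
    have h7 : A * q ^ 2 * ((K ∩ P).card * (K ∩ L).card) ≤
        16 * A * ∑ v ∈ univ \ K, (F v).card := by
      calc A * q ^ 2 * ((K ∩ P).card * (K ∩ L).card)
          = A * q * (q * ((K ∩ P).card * (K ∩ L).card)) := by ring
        _ ≤ A * q * (8 * (ext G P L K).card) := Nat.mul_le_mul_left _ hE
        _ = 8 * A * ((ext G P L K).card * q) := by ring
        _ ≤ 8 * A * ((ext G P L K).card * (2 * (q - 2))) :=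
            Nat.mul_le_mul_left _ (Nat.mul_le_mul_left _ (by omega))
        _ = 16 * A * ((ext G P L K).card * (q - 2)) := by ring
        _ ≤ _ := Nat.mul_le_mul_left _ h2
    omega
  obtain ⟨v, hv, hv2⟩ := h3
  have hvK : v ∉ K := (mem_sdiff.1 hv).2
  refine ⟨v, hvK, fun K' hK' hsub => hv2.trans (Nat.mul_le_mul_left _ ?_)⟩
  have hKK' : K ⊆ K' := (subset_insert _ _).trans hsub
  have hvK' : v ∈ K' := hsub (mem_insert_self _ _)
  refine card_le_card_of_injOn (fun x => x.2) ?_ ?_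
  · intro x hx
    rw [mem_coe, hF, mem_filter, mem_ext] at hx
    obtain ⟨⟨⟨hz, ha, hza⟩, ⟨w, hw, hzw⟩, ⟨l, hl, hal⟩⟩, hzv, hva⟩ := hx
    rw [mem_inter] at hw hl
    rw [mem_coe, mem_inter]
    have h4 : x.1 ∈ K' := hK' v hvK' w (hKK' hw.1) (fun h5 => hvK (h5 ▸ hw.1)) x.1 hzv hzw
    refine ⟨hK' x.1 h4 l (hKK' hl.1) (fun h5 => hz (h5 ▸ hl.1)) x.2 hza.symm hal, ?_⟩
    exact h.lp l x.2 hal.symm hl.2
  · intro x hx y hy hxy
    rw [mem_coe, hF, mem_filter, mem_ext] at hx hy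
    simp only at hxy
    refine Prod.ext (h.c4 x.2 v x.1 y.1 hx.2.2.symm hx.1.1.2.2 hx.2.1 ?_ hy.2.1) hxy
    rw [hxy]
    exact hy.1.1.2.2

end

end Run7.h33.AF
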