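import Pool.Agent.Run7.h33.AF.Proc

/-!
# Bipartite graphs, and the incidence graphs of nets
-/

set_option autoImplicit false
set_option linter.unusedSectionVars false

namespace Run7.h33.AF

open SimpleGraph Finset Run7.h33.NM Pool.Agent.N624.NT Pool.Agent.W185.SRG

section

variable {V W : Type} [Fintype V] [Fintype W] {G : SimpleGraph V} {H : SimpleGraph W} {N : ℕ}

theorem card_wk (u v : V) :
    (wk G u v).card = {x : V × V | G.Adj u x.1 ∧ G.Adj x.1 x.2 ∧ G.Adj x.2 v}.ncard := by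
  classical
  rw [← Set.ncard_coe_finset]
  congr 1
  ext x
  rw [mem_coe, mem_wk]
  rfl

theorem noC4_of (h : ∀ u v, u ≠ v → (G.commonNeighbors u v).Subsingleton) : NoC4 G :=
  fun u v _ _ huv h2 h3 h4 h5 => h u v huv ⟨h2.symm, h3.symm⟩ ⟨h4.symm, h5.symm⟩

theorem one_le_N {A l : ℕ} (hA : 1 ≤ A) (hN : 10 ^ 8 * A ^ 7 * (l + 1) ≤ N) : 1 ≤ N := by
  refine le_trans ?_ hN
  exact Nat.mul_pos (Nat.mul_pos (by norm_num) (Nat.pow_pos hA)) (Nat.succ_pos _)

theorem one_le_A {A q : ℕ} [Nonempty V] (hn : Fintype.card V ≤ A * q ^ 2) : 1 ≤ A := by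
  rcases Nat.eq_zero_or_pos A with rfl | h
  · have := Fintype.card_pos (α := V)
    omega
  · exact h

/-- Graphs in which any two different non-adjacent vertices are joined by many paths of length
three. -/
theorem main_plain {q A : ℕ} (hA : 1 ≤ A)
    (hG : ∀ u v, u ≠ v → (G.commonNeighbors u v).Subsingleton)
    (hd : ∀ v, q ≤ (G.neighborSet v).ncard)
    (h3 : ∀ u v, u ≠ v → ¬ G.Adj u v →
      q ≤ {x : V × V | G.Adj u x.1 ∧ G.Adj x.1 x.2 ∧ G.Adj x.2 v}.ncard)
    (hn : Fintype.card V ≤ A * q ^ 2)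
    (hN : 10 ^ 8 * A ^ 7 * (Nat.log 2 (Nat.log 2 (Fintype.card V)) + 1) ≤ N)
    (hW : WLEquivalent N G H) : Nonempty (G ≃g H) := by
  classical
  rcases isEmpty_or_nonempty V with hV | hV
  · exact iso_of_empty (one_le_N hA hN) hW
  · refine main_geo (P := univ) (L := univ) (q := q) ?_ hA hn hN hW
    exact
    { c4 := noC4_of hG
      cov := fun v => Or.inl (mem_univ v)
      pl := fun _ _ _ _ => mem_univ _
      lp := fun _ _ _ _ => mem_univ _
      deg := fun v => by
        rw [card_nb]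
        exact hd v
      tri := fun p _ l _ hpl hadj => by
        rw [card_wk]
        exact h3 p l hpl hadj }

/-- Bipartite graphs. -/
theorem main_bip {q A : ℕ} (hA : 1 ≤ A)
    (hG : ∀ u v, u ≠ v → (G.commonNeighbors u v).Subsingleton)
    (c : V → Bool) (hc : ∀ u v, G.Adj u v → c u ≠ c v)
    (hd : ∀ v, q ≤ (G.neighborSet v).ncard)
    (h3 : ∀ u v, c u ≠ c v → ¬ G.Adj u v →
      q ≤ {x : V × V | G.Adj u x.1 ∧ G.Adj x.1 x.2 ∧ G.Adj x.2 v}.ncard)
    (hn : Fintype.card V ≤ A * q ^ 2)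
    (hN : 10 ^ 8 * A ^ 7 * (Nat.log 2 (Nat.log 2 (Fintype.card V)) + 1) ≤ N)
    (hW : WLEquivalent N G H) : Nonempty (G ≃g H) := by
  classical
  rcases isEmpty_or_nonempty V with hV | hV
  · exact iso_of_empty (one_le_N hA hN) hW
  · refine main_geo (P := univ.filter fun v => c v = true)
      (L := univ.filter fun v => c v = false) (q := q) ?_ hA hn hN hW
    exact
    { c4 := noC4_of hG
      cov := fun v => by
        rcases Bool.eq_false_or_eq_true (c v) with h | h
        · exact Or.inl (mem_filter.2 ⟨mem_univ _, h⟩)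
        · exact Or.inr (mem_filter.2 ⟨mem_univ _, h⟩)
      pl := fun u v h hu => by
        rw [mem_filter] at hu ⊢
        have := hc u v h
        rw [hu.2] at this
        exact ⟨mem_univ _, by simpa using this.symm⟩
      lp := fun u v h hu => by
        rw [mem_filter] at hu ⊢
        have := hc u v h
        rw [hu.2] at this
        exact ⟨mem_univ _, by simpa using this.symm⟩
      deg := fun v => by
        rw [card_nb]
        exact hd v
      tri := fun p hp l hl hpl hadj => by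
        rw [card_wk]
        rw [mem_filter] at hp hl
        refine h3 p l ?_ hadj
        rw [hp.2, hl.2]
        decide }

end

section

variable {P Q : Type} {k : ℕ}

/-- The incidence graph of a net. -/
def incGraph (f : Fin k → P → Q) : SimpleGraph (P ⊕ Fin k × Q) where
  Adj u v := (∃ p i, u = Sum.inl p ∧ v = Sum.inr (i, f i p)) ∨
    ∃ p i, v = Sum.inl p ∧ u = Sum.inr (i, f i p)
  symm := ⟨fun _ _ h => h.symm⟩
  loopless := ⟨fun u h => by
    rcases h with ⟨p, i, h1, h2⟩ | ⟨p, i, h1, h2⟩ <;> rw [h1] at h2 <;> cases h2⟩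

theorem adj_pl (f : Fin k → P → Q) (p : P) (i : Fin k) (a : Q) :
    (incGraph f).Adj (Sum.inl p) (Sum.inr (i, a)) ↔ f i p = a := by
  constructor
  · rintro (⟨p', j, h1, h2⟩ | ⟨p', j, h1, h2⟩)
    · cases h1
      cases h2
      rfl
    · cases h1
  · rintro rfl
    exact Or.inl ⟨p, i, rfl, rfl⟩

theorem adj_lp (f : Fin k → P → Q) (p : P) (i : Fin k) (a : Q) :
    (incGraph f).Adj (Sum.inr (i, a)) (Sum.inl p) ↔ f i p = a := by
  rw [(incGraph f).adj_comm, adj_pl]

theorem not_adj_pp (f : Fin k → P → Q) (p p' : P) :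
    ¬ (incGraph f).Adj (Sum.inl p) (Sum.inl p') := by
  rintro (⟨p', j, h1, h2⟩ | ⟨p', j, h1, h2⟩)
  · cases h2
  · cases h2

theorem not_adj_ll (f : Fin k → P → Q) (x y : Fin k × Q) :
    ¬ (incGraph f).Adj (Sum.inr x) (Sum.inr y) := by
  rintro (⟨p', j, h1, h2⟩ | ⟨p', j, h1, h2⟩)
  · cases h1
  · cases h1

variable {f : Fin k → P → Q}

theorem net_c4 (hf : IsNet f) (u v : P ⊕ Fin k × Q) (huv : u ≠ v) :
    ((incGraph f).commonNeighbors u v).Subsingleton := by
  rintro z ⟨hz, hz'⟩ z' ⟨hy, hy'⟩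
  simp only [SimpleGraph.mem_neighborSet] at hz hz' hy hy'
  have key : ∀ (x y : P) (i j : Fin k), x ≠ y → f i x = f i y → f j x = f j y → i = j := by
    intro x y i j hxy h1 h2
    by_contra hij
    exact hxy ((hf i j hij).1 (Prod.ext h1 h2))
  rcases u with x | ⟨i, a⟩ <;> rcases v with y | ⟨j, b⟩
  · rcases z with z | ⟨c, e⟩
    · exact absurd hz (not_adj_pp f _ _)
    rcases z' with z' | ⟨c', e'⟩
    · exact absurd hy (not_adj_pp f _ _)
    rw [adj_pl] at hz hz' hy hy'
    have hxy : x ≠ y := fun h => huv (by rw [h])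
    have h1 := key x y c c' hxy (hz.trans hz'.symm) (hy.trans hy'.symm)
    subst h1
    rw [← hz, ← hy]
  · rcases z with z | ⟨c, e⟩
    · exact absurd hz (not_adj_pp f _ _)
    · exact absurd hz' (not_adj_ll f _ _)
  · rcases z with z | ⟨c, e⟩
    · exact absurd hz' (not_adj_pp f _ _)
    · exact absurd hz (not_adj_ll f _ _)
  · rcases z with z | ⟨c, e⟩
    · rcases z' with z' | ⟨c', e'⟩
      · rw [adj_lp] at hz hz' hy hy'
        by_cases hij : i = j
        · subst hij
          exact absurd (by rw [← hz, ← hz']) huv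
        · rw [(hf i j hij).1 (Prod.ext (hz.trans hy.symm) (hz'.trans hy'.symm))]
      · exact absurd hy (not_adj_ll f _ _)
    · exact absurd hz (not_adj_ll f _ _)

section

variable [Fintype P] [Fintype Q]

theorem net_card_points (hf : IsNet f) (hk : 2 ≤ k) :
    Fintype.card P = Fintype.card Q * Fintype.card Q := by
  rw [Fintype.card_congr (Equiv.ofBijective _ (hf ⟨0, by omega⟩ ⟨1, by omega⟩ (by simp))),
    Fintype.card_prod]

/-- The number of the points of a line. -/
theorem net_card_line (hf : IsNet f) (hk : 2 ≤ k) (i : Fin k) (a : Q) :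
    ((incGraph f).neighborSet (Sum.inr (i, a))).ncard = Fintype.card Q := by
  obtain ⟨j, hj⟩ : ∃ j : Fin k, i ≠ j := by
    by_cases h : (i : ℕ) = 0
    · exact ⟨⟨1, by omega⟩, fun h' => by rw [h'] at h; simp at h⟩
    · exact ⟨⟨0, by omega⟩, fun h' => h (by rw [h'])⟩
  have e := Equiv.ofBijective _ (hf i j hj)
  rw [← Nat.card_eq_fintype_card, ← Set.ncard_univ]
  have hb := hf i j hj
  symm
  refine Set.ncard_congr (fun b _ => Sum.inl ((Equiv.ofBijective _ hb).symm (a, b))) ?_ ?_ ?_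
  · intro b _
    rw [SimpleGraph.mem_neighborSet, adj_lp]
    have := (Equiv.ofBijective _ hb).apply_symm_apply (a, b)
    rw [Equiv.ofBijective_apply] at this
    exact congrArg Prod.fst this
  · intro b b' _ _ h
    have h1 := (Equiv.ofBijective _ hb).symm.injective (Sum.inl_injective h)
    exact congrArg Prod.snd h1
  · intro z hz
    rw [SimpleGraph.mem_neighborSet] at hz
    rcases z with p | x
    · rw [adj_lp] at hz
      refine ⟨f j p, Set.mem_univ _, ?_⟩
      rw [← hz]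
      exact congrArg Sum.inl ((Equiv.ofBijective _ hb).symm_apply_apply p)
    · exact absurd hz (not_adj_ll f _ _)

/-- The number of the lines through a point. -/
theorem net_card_point (p : P) :
    ((incGraph f).neighborSet (Sum.inl p)).ncard = k := by
  have e : k = (Set.univ : Set (Fin k)).ncard := by
    rw [Set.ncard_univ, Nat.card_eq_fintype_card, Fintype.card_fin]
  refine Eq.trans ?_ e.symm
  symm
  refine Set.ncard_congr (fun i _ => Sum.inr (i, f i p)) ?_ ?_ ?_
  · intro i _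
    rw [SimpleGraph.mem_neighborSet, adj_pl]
  · intro i j _ _ h
    exact congrArg Prod.fst (Sum.inr_injective h)
  · intro z hz
    rw [SimpleGraph.mem_neighborSet] at hz
    rcases z with p' | ⟨i, a⟩
    · exact absurd hz (not_adj_pp f _ _)
    · rw [adj_pl] at hz
      exact ⟨i, Set.mem_univ _, by rw [hz]⟩

theorem net_anti (hf : IsNet f) (p : P) (i : Fin k) (a : Q) (h : f i p ≠ a) :
    k - 1 ≤ {x : (P ⊕ Fin k × Q) × (P ⊕ Fin k × Q) | (incGraph f).Adj (Sum.inl p) x.1 ∧
      (incGraph f).Adj x.1 x.2 ∧ (incGraph f).Adj x.2 (Sum.inr (i, a))}.ncard := by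
  classical
  have e : k - 1 = ({i}ᶜ : Set (Fin k)).ncard := by
    rw [Set.ncard_compl, Set.ncard_singleton, Nat.card_eq_fintype_card, Fintype.card_fin]
  rw [e]
  have h1 : ∀ j : Fin k, j ≠ i → ∃ y : P, f j y = f j p ∧ f i y = a := by
    intro j hj
    obtain ⟨y, hy⟩ := (hf j i hj).2 (f j p, a)
    exact ⟨y, congrArg Prod.fst hy, congrArg Prod.snd hy⟩
  choose y hy using h1
  refine Set.ncard_le_ncard_of_injOn (fun j => if hj : j ≠ i then
    ((Sum.inr (j, f j p) : P ⊕ Fin k × Q), (Sum.inl (y j hj) : P ⊕ Fin k × Q)) else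
    (Sum.inl p, Sum.inl p)) ?_ ?_ (Set.toFinite _)
  · intro j hj
    rw [Set.mem_compl_iff, Set.mem_singleton_iff] at hj
    simp only [ne_eq, hj, not_false_eq_true, dite_true, Set.mem_ofPred_eq]
    rw [adj_pl, adj_lp, adj_pl]
    exact ⟨rfl, (hy j hj).1, (hy j hj).2⟩
  · intro j hj j' hj' h2
    rw [Set.mem_compl_iff, Set.mem_singleton_iff] at hj hj'
    simp only [ne_eq, hj, hj', not_false_eq_true, dite_true] at h2
    exact congrArg Prod.fst (Sum.inr_injective (congrArg Prod.fst h2))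

theorem net_le (hf : IsNet f) (hk : 2 ≤ k) (hQ : 2 ≤ Fintype.card Q) :
    k - 1 ≤ Fintype.card Q := by
  classical
  have hne : Nonempty P := by
    rw [← Fintype.card_pos_iff, net_card_points hf hk]
    exact Nat.mul_pos (by omega) (by omega)
  obtain ⟨p⟩ := hne
  obtain ⟨i⟩ : Nonempty (Fin k) := ⟨⟨0, by omega⟩⟩
  obtain ⟨a, ha⟩ : ∃ a : Q, f i p ≠ a := by
    by_contra hcon
    push Not at hcon
    have : Fintype.card Q ≤ 1 := Fintype.card_le_one_iff.2 fun a b => by
      rw [← hcon a, ← hcon b]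
    omega
  refine (net_anti hf p i a ha).trans ?_
  rw [← net_card_line hf hk i a]
  refine Set.ncard_le_ncard_of_injOn (fun x => x.2) ?_ ?_ (Set.toFinite _)
  · intro x hx
    exact hx.2.2.symm
  · intro x hx x' hx' hxx
    refine Prod.ext ?_ hxx
    refine net_c4 hf (Sum.inl p) x.2 ?_ ⟨hx.1, hx.2.1.symm⟩ ⟨hx'.1, ?_⟩
    · intro h2
      have h3 := hx.2.2
      rw [← h2, adj_pl] at h3
      exact ha h3
    · have h3 := hx'.2.1.symm
      simp only at hxx
      rw [← hxx] at h3
      exact h3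

theorem loglog_le {s n : ℕ} (hs : 2 ≤ s) (hn : n ≤ 4 * s ^ 2) :
    Nat.log 2 (Nat.log 2 n) + 1 ≤ 4 * (Nat.log 2 (Nat.log 2 s) + 1) := by
  obtain ⟨l, hl⟩ : ∃ l, l = Nat.log 2 s := ⟨_, rfl⟩
  have hl1 : 1 ≤ l := by
    rw [hl]
    exact Nat.log_pos (by norm_num) hs
  have h1 : s < 2 ^ (l + 1) := by
    rw [hl]
    exact Nat.lt_pow_succ_log_self (by norm_num) s
  have h2 : n < 2 ^ (2 * l + 4) := by
    calc n ≤ 4 * s ^ 2 := hn
      _ < 4 * (2 ^ (l + 1)) ^ 2 :=
          Nat.mul_lt_mul_of_pos_left (Nat.pow_lt_pow_left h1 (by norm_num)) (by norm_num)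
      _ = 2 ^ (2 * l + 4) := by ring
  have h3 : Nat.log 2 n ≤ 8 * l := by
    have : Nat.log 2 n < 2 * l + 4 := Nat.log_lt_of_lt_pow' (by omega) h2
    omega
  have h4 : Nat.log 2 (Nat.log 2 n) ≤ Nat.log 2 l + 3 := by
    calc Nat.log 2 (Nat.log 2 n) ≤ Nat.log 2 (8 * l) := Nat.log_mono_right h3
      _ = Nat.log 2 (l * 2 * 2 * 2) := by congr 1; ring
      _ = Nat.log 2 l + 3 := by
          rw [Nat.log_mul_base (by norm_num) (by omega), Nat.log_mul_base (by norm_num)
            (by omega), Nat.log_mul_base (by norm_num) (by omega)]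
  rw [← hl]
  omega

/-- Dense nets. -/
theorem main_net {W : Type} [Fintype W] {H : SimpleGraph W} {N B : ℕ} (hf : IsNet f)
    (hk : 2 ≤ k) (hQ : 2 ≤ Fintype.card Q) (hB : Fintype.card Q ≤ B * (k - 1))
    (hN : 10 ^ 12 * B ^ 14 * (Nat.log 2 (Nat.log 2 (Fintype.card Q)) + 1) ≤ N)
    (hW : WLEquivalent N (incGraph f) H) : Nonempty (incGraph f ≃g H) := by
  classical
  obtain ⟨q, hq⟩ : ∃ q, q = k - 1 := ⟨_, rfl⟩
  obtain ⟨s, hs⟩ : ∃ s, s = Fintype.card Q := ⟨_, rfl⟩
  have hqs : q ≤ s := by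
    rw [hq, hs]
    exact net_le hf hk hQ
  rw [← hq, ← hs] at hB
  rw [← hs] at hN hQ
  have hB1 : 1 ≤ B := by
    rcases Nat.eq_zero_or_pos B with rfl | h
    · omega
    · exact h
  have hcard : Fintype.card (P ⊕ Fin k × Q) = s * s + k * s := by
    rw [Fintype.card_sum, Fintype.card_prod, Fintype.card_fin, net_card_points hf hk, hs]
  have hks : k * s ≤ 2 * (q * s) := by
    calc k * s ≤ 2 * q * s := Nat.mul_le_mul_right _ (by omega)
      _ = _ := by ring
  refine main_bip (q := q) (A := 3 * B ^ 2) (Nat.mul_pos (by norm_num) (Nat.pow_pos hB1))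
    (net_c4 hf) (fun x => Sum.elim (fun _ => true) (fun _ => false) x) ?_ ?_ ?_ ?_ ?_ hW
  · rintro u v (⟨p, i, rfl, rfl⟩ | ⟨p, i, rfl, rfl⟩)
    · simp
    · simp
  · rintro (p | ⟨i, a⟩)
    · rw [net_card_point]
      omega
    · rw [net_card_line hf hk, ← hs]
      exact hqs
  · rintro (p | ⟨i, a⟩) (p' | ⟨i', a'⟩) hc hadj
    · simp at hc
    · rw [adj_pl] at hadj
      rw [hq]
      exact net_anti hf p i' a' hadj
    · rw [adj_lp] at hadj
      rw [hq]
      have h1 := net_anti hf p' i a hadj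
      rw [← card_wk] at h1 ⊢
      rwa [card_wk_symm]
    · simp at hc
  · rw [hcard]
    calc s * s + k * s ≤ s * s + 2 * (q * s) := Nat.add_le_add_left hks _
      _ ≤ (B * q) * (B * q) + 2 * (q * (B * q)) := by gcongr
      _ = (B ^ 2 + 2 * B) * q ^ 2 := by ring
      _ ≤ 3 * B ^ 2 * q ^ 2 := by
          refine Nat.mul_le_mul_right _ ?_
          have : B ≤ B ^ 2 := by
            rw [pow_two]
            exact Nat.le_mul_self B
          omega
  · refine le_trans ?_ hN
    have h1 := loglog_le (s := s) (n := Fintype.card (P ⊕ Fin k × Q)) hQ (by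
      rw [hcard]
      have : q * s ≤ s * s := Nat.mul_le_mul_right _ hqs
      have e : 4 * s ^ 2 = 4 * (s * s) := by ring
      omega)
    calc 10 ^ 8 * (3 * B ^ 2) ^ 7 *
          (Nat.log 2 (Nat.log 2 (Fintype.card (P ⊕ Fin k × Q))) + 1)
        ≤ 10 ^ 8 * (3 * B ^ 2) ^ 7 * (4 * (Nat.log 2 (Nat.log 2 s) + 1)) :=
          Nat.mul_le_mul_left _ h1
      _ = 874800000000 * B ^ 14 * (Nat.log 2 (Nat.log 2 s) + 1) := by ring
      _ ≤ 10 ^ 12 * B ^ 14 * (Nat.log 2 (Nat.log 2 s) + 1) := by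
          gcongr
          norm_num

end

end

end Run7.h33.AF
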