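import Pool.Agent.Run7.h33.AF.Grow

/-!
# Generation by a doubly logarithmic number of vertices, and the Weisfeiler-Leman dimension
-/

set_option autoImplicit false
set_option linter.unusedSectionVars false

namespace Run7.h33.AF

open SimpleGraph Finset Run7.h33.NM Pool.Agent.N624.NT Pool.Agent.W185.SRG

section

variable {V : Type} [Fintype V] [DecidableEq V] {G : SimpleGraph V}

/-- Any set can be included. -/
theorem reach {Ach : ℕ → Finset V → Prop} {Nmax : ℕ}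
    (hstep : ∀ t K v, Ach t K → t < Nmax → ∃ K', Ach (t + 1) K' ∧ insert v K ⊆ K')
    {K₀ : Finset V} (h₀ : Ach 0 K₀) (S : Finset V) (hS : S.card ≤ Nmax) :
    ∃ K, Ach S.card K ∧ S ⊆ K := by
  induction S using Finset.induction_on with
  | empty => exact ⟨K₀, h₀, empty_subset _⟩
  | insert a S ha ih =>
    rw [card_insert_of_notMem ha] at hS ⊢
    obtain ⟨K, hK, hSK⟩ := ih (by omega)
    obtain ⟨K', hK', hsub⟩ := hstep _ K a hK (by omega)
    refine ⟨K', hK', insert_subset (hsub (mem_insert_self _ _)) ?_⟩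
    exact hSK.trans ((subset_insert _ _).trans hsub)

theorem Geo.card_sorts {P L : Finset V} {q : ℕ} (h : Geo G P L q) (hq : 1 ≤ q) (v : V) :
    q ≤ P.card ∧ q ≤ L.card := by
  have key : ∀ {P L : Finset V}, Geo G P L q → ∀ v ∈ P, q ≤ P.card ∧ q ≤ L.card := by
    intro P L h v hv
    have h1 : nb G v ⊆ L := fun w hw => h.pl v w (mem_nb.1 hw) hv
    have h2 := h.deg v
    obtain ⟨l, hl⟩ : (nb G v).Nonempty := by
      rw [← card_pos]
      omega
    have h3 : nb G l ⊆ P := fun w hw => h.lp l w (mem_nb.1 hw) (h1 hl)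
    exact ⟨(h.deg l).trans (card_le_card h3), h2.trans (card_le_card h1)⟩
  rcases h.cov v with h1 | h1
  · exact key h v h1
  · exact (key h.swap v h1).symm

theorem Geo.generate {P L : Finset V} {q A : ℕ} (h : Geo G P L q) (hA : 1 ≤ A)
    (hq : 5000 * A ^ 3 ≤ q) (hn : Fintype.card V ≤ A * q ^ 2)
    {Ach : ℕ → Finset V → Prop} {Nmax : ℕ} (hcl : ∀ t K, Ach t K → t ≤ Nmax → ClC G K)
    (hstep : ∀ t K v, Ach t K → t < Nmax → ∃ K', Ach (t + 1) K' ∧ insert v K ⊆ K')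
    {K₀ : Finset V} (h₀ : Ach 0 K₀) (v₀ : V) {j : ℕ} (hj : Fintype.card V ^ 2 < 2 ^ 2 ^ j)
    (hN : 2 * (4096 * A ^ 3) + 2 * j ≤ Nmax) :
    ∃ t ≤ Nmax, Ach t univ := by
  have hA3 : 1 ≤ A ^ 3 := Nat.pow_pos (by omega)
  have hA23 : A ^ 2 ≤ A ^ 3 := Nat.pow_le_pow_right (by omega) (by omega)
  obtain ⟨M, hM⟩ : ∃ M, M = 4096 * A ^ 3 := ⟨_, rfl⟩
  rw [← hM] at hN
  obtain ⟨hP, hL⟩ := h.card_sorts (by omega) v₀
  obtain ⟨S₁, hS₁, hS₁c⟩ := exists_subset_card_eq (s := P) (n := M) (by omega)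
  obtain ⟨S₂, hS₂, hS₂c⟩ := exists_subset_card_eq (s := L) (n := M) (by omega)
  obtain ⟨K₁, hK₁, hSK₁⟩ := reach hstep h₀ (S₁ ∪ S₂) (by
    have := card_union_le S₁ S₂
    omega)
  have hSc := card_union_le S₁ S₂
  have key : ∀ i, i ≤ j → ∃ t ≤ 2 * M + 2 * i, ∃ K, Ach t K ∧ (K = univ ∨
      (M ≤ (K ∩ P).card ∧ M ≤ (K ∩ L).card ∧ 2 ^ 2 ^ i ≤ (K ∩ P).card * (K ∩ L).card)) := by
    intro i
    induction i with
    | zero =>
      intro _
      have h1 : M ≤ (K₁ ∩ P).card := by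
        rw [← hS₁c]
        exact card_le_card (subset_inter (subset_union_left.trans hSK₁) hS₁)
      have h2 : M ≤ (K₁ ∩ L).card := by
        rw [← hS₂c]
        exact card_le_card (subset_inter (subset_union_right.trans hSK₁) hS₂)
      refine ⟨_, by omega, K₁, hK₁, Or.inr ⟨h1, h2, ?_⟩⟩
      calc 2 ^ 2 ^ 0 ≤ M * 1 := by
            rw [pow_zero, pow_one]
            omega
        _ ≤ _ := Nat.mul_le_mul h1 (by omega)
    | succ i ih =>
      intro hi
      obtain ⟨t, ht, K, hK, hcase⟩ := ih (by omega)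
      rcases hcase with h1 | ⟨h1, h2, h3⟩
      · exact ⟨t, by omega, K, hK, Or.inl h1⟩
      by_cases hu : K = univ
      · exact ⟨t, by omega, K, hK, Or.inl hu⟩
      obtain ⟨v, -, hv⟩ := h.grow hA (by omega) hn (hcl t K hK (by omega)) hu (by omega)
        (by omega)
      obtain ⟨K', hK', hsub⟩ := hstep t K v hK (by omega)
      have hKK' : K ⊆ K' := (subset_insert _ _).trans hsub
      have h4 := hv K' (hcl _ K' hK' (by omega)) hsub
      have h5 : M ≤ (K' ∩ P).card := h1.trans (card_le_card (inter_subset_inter_right hKK'))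
      have h6 : (K ∩ L).card ≤ (K' ∩ L).card := card_le_card (inter_subset_inter_right hKK')
      by_cases hu' : K' = univ
      · exact ⟨t + 1, by omega, K', hK', Or.inl hu'⟩
      obtain ⟨v', -, hv'⟩ := h.swap.grow hA (by omega) hn (hcl _ K' hK' (by omega)) hu'
        (by omega) (by omega)
      obtain ⟨K'', hK'', hsub'⟩ := hstep _ K' v' hK' (by omega)
      have hKK'' : K' ⊆ K'' := (subset_insert _ _).trans hsub'
      have h7 := hv' K'' (hcl _ K'' hK'' (by omega)) hsub'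
      have h8 : (K' ∩ P).card ≤ (K'' ∩ P).card :=
        card_le_card (inter_subset_inter_right hKK'')
      have h9 : (K' ∩ L).card ≤ (K'' ∩ L).card :=
        card_le_card (inter_subset_inter_right hKK'')
      refine ⟨t + 1 + 1, by omega, K'', hK'', Or.inr ⟨by omega, by omega, ?_⟩⟩
      obtain ⟨a, ha⟩ : ∃ a, a = (K ∩ P).card := ⟨_, rfl⟩
      obtain ⟨b, hb⟩ : ∃ b, b = (K ∩ L).card := ⟨_, rfl⟩
      obtain ⟨a', ha'⟩ : ∃ a, a = (K' ∩ P).card := ⟨_, rfl⟩
      obtain ⟨b', hb'⟩ : ∃ b, b = (K' ∩ L).card := ⟨_, rfl⟩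
      obtain ⟨a'', ha''⟩ : ∃ a, a = (K'' ∩ P).card := ⟨_, rfl⟩
      obtain ⟨b'', hb''⟩ : ∃ b, b = (K'' ∩ L).card := ⟨_, rfl⟩
      rw [← ha, ← hb] at h3 h4
      rw [← ha] at h1
      rw [← hb] at h2
      rw [← ha'] at h4 h5
      rw [← hb, ← hb'] at h6
      rw [← ha', ← hb'] at h7
      rw [← ha', ← ha''] at h8
      rw [← hb', ← hb''] at h9
      rw [← hb''] at h7
      rw [← ha'', ← hb'']
      -- `a b ≤ 16 A a'`, `b a' ≤ 16 A b''`
      have h10 : M * (a * b) ^ 2 ≤ M * (a'' * b'') := by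
        calc M * (a * b) ^ 2 ≤ b * (a * b) ^ 2 := Nat.mul_le_mul_right _ h2
          _ = b * (a * b) * (a * b) := by ring
          _ ≤ b * (16 * A * a') * (16 * A * a') :=
              Nat.mul_le_mul (Nat.mul_le_mul_left _ h4) h4
          _ = 256 * A ^ 2 * (b * a') * a' := by ring
          _ ≤ 256 * A ^ 2 * (b' * a') * a' :=
              Nat.mul_le_mul_right _ (Nat.mul_le_mul_left _ (Nat.mul_le_mul_right _ h6))
          _ ≤ 256 * A ^ 2 * (16 * A * b'') * a' :=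
              Nat.mul_le_mul_right _ (Nat.mul_le_mul_left _ h7)
          _ = M * (a' * b'') := by rw [hM]; ring
          _ ≤ M * (a'' * b'') := Nat.mul_le_mul_left _ (Nat.mul_le_mul_right _ h8)
      have h11 : (a * b) ^ 2 ≤ a'' * b'' := Nat.le_of_mul_le_mul_left h10 (by omega)
      calc 2 ^ 2 ^ (i + 1) = (2 ^ 2 ^ i) ^ 2 := by rw [← pow_mul, ← pow_succ]
        _ ≤ (a * b) ^ 2 := Nat.pow_le_pow_left h3 2
        _ ≤ _ := h11
  obtain ⟨t, ht, K, hK, hcase⟩ := key j le_rfl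
  rcases hcase with rfl | ⟨-, -, h3⟩
  · exact ⟨t, by omega, hK⟩
  · exfalso
    have h4 : (K ∩ P).card * (K ∩ L).card ≤ Fintype.card V ^ 2 := by
      rw [pow_two]
      exact Nat.mul_le_mul (card_le_univ _) (card_le_univ _)
    omega

end

section

variable {V W : Type} [Fintype V] [Fintype W] {G : SimpleGraph V} {H : SimpleGraph W} {N : ℕ}

theorem loglog (n : ℕ) : n ^ 2 < 2 ^ 2 ^ (Nat.log 2 (Nat.log 2 n) + 3) := by
  have h1 : n < 2 ^ (Nat.log 2 n + 1) := Nat.lt_pow_succ_log_self (by norm_num) n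
  have h2 : Nat.log 2 n < 2 ^ (Nat.log 2 (Nat.log 2 n) + 1) :=
    Nat.lt_pow_succ_log_self (by norm_num) _
  have h3 : 1 ≤ 2 ^ (Nat.log 2 (Nat.log 2 n) + 1) := Nat.one_le_pow _ _ (by norm_num)
  calc n ^ 2 < (2 ^ (Nat.log 2 n + 1)) ^ 2 := Nat.pow_lt_pow_left h1 (by norm_num)
    _ = 2 ^ ((Nat.log 2 n + 1) * 2) := (pow_mul _ _ _).symm
    _ ≤ 2 ^ 2 ^ (Nat.log 2 (Nat.log 2 n) + 3) := by
        refine Nat.pow_le_pow_right (by norm_num) ?_
        have e : 2 ^ (Nat.log 2 (Nat.log 2 n) + 3) =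
            4 * 2 ^ (Nat.log 2 (Nat.log 2 n) + 1) := by ring
        omega

theorem main_geo [DecidableEq V] [Nonempty V] {P L : Finset V} {q A : ℕ} (h : Geo G P L q)
    (hA : 1 ≤ A) (hn : Fintype.card V ≤ A * q ^ 2)
    (hN : 10 ^ 8 * A ^ 7 * (Nat.log 2 (Nat.log 2 (Fintype.card V)) + 1) ≤ N)
    (hW : WLEquivalent N G H) : Nonempty (G ≃g H) := by
  obtain ⟨Ach, hAch⟩ : ∃ Ach : ℕ → Finset V → Prop, Ach = fun t K =>
    ∃ E : List (V × W), Pos G H N E ∧ E.length ≤ t ∧ kn G H N E = K := ⟨_, rfl⟩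
  have hcl : ∀ t K, Ach t K → t ≤ N - 2 → ClC G K := by
    intro t K hK ht
    rw [hAch] at hK
    obtain ⟨E, -, hE, rfl⟩ := hK
    refine clC_kn h.c4 ?_
    have : 10 ^ 8 * A ^ 7 ≥ 10 ^ 8 * 1 := Nat.mul_le_mul_left _ (Nat.pow_pos (by omega))
    have : 10 ^ 8 * A ^ 7 * (Nat.log 2 (Nat.log 2 (Fintype.card V)) + 1) ≥ 10 ^ 8 * A ^ 7 * 1 :=
      Nat.mul_le_mul_left _ (by omega)
    omega
  have hstep : ∀ t K v, Ach t K → t < N - 2 → ∃ K', Ach (t + 1) K' ∧ insert v K ⊆ K' := by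
    intro t K v hK ht
    rw [hAch] at hK
    obtain ⟨E, hP, hE, rfl⟩ := hK
    obtain ⟨β, hβ⟩ := hP.step (by omega)
    refine ⟨kn G H N ((v, β v) :: E), ?_, ?_⟩
    · rw [hAch]
      exact ⟨_, hβ v, by rw [List.length_cons]; omega, rfl⟩
    · intro x hx
      rcases mem_insert.1 hx with rfl | hx
      · exact mem_kn.2 (kl_mem (e := (x, β x)) List.mem_cons_self)
      · exact mem_kn.2 ((mem_kn.1 hx).mono fun e he => List.mem_cons_of_mem _ he)
  have h0 : Ach 0 (kn G H N []) := by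
    rw [hAch]
    exact ⟨[], pos_nil hW, le_rfl, rfl⟩
  have hA7 : 1 ≤ A ^ 7 := Nat.pow_pos (by omega)
  have hA37 : A ^ 3 ≤ A ^ 7 := Nat.pow_le_pow_right (by omega) (by omega)
  have hll : 10 ^ 8 * (Nat.log 2 (Nat.log 2 (Fintype.card V)) + 1) + 0 ≤
      10 ^ 8 * A ^ 7 * (Nat.log 2 (Nat.log 2 (Fintype.card V)) + 1) := by
    calc _ = 10 ^ 8 * 1 * (Nat.log 2 (Nat.log 2 (Fintype.card V)) + 1) := by ring
      _ ≤ _ := Nat.mul_le_mul_right _ (Nat.mul_le_mul_left _ hA7)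
  have hll2 : 10 ^ 8 * A ^ 7 ≤
      10 ^ 8 * A ^ 7 * (Nat.log 2 (Nat.log 2 (Fintype.card V)) + 1) :=
    Nat.le_mul_of_pos_right _ (by omega)
  have key : ∃ t ≤ N - 2, Ach t univ := by
    by_cases hq : 5000 * A ^ 3 ≤ q
    · obtain ⟨v₀⟩ := ‹Nonempty V›
      refine h.generate hA hq hn hcl hstep h0 v₀ (loglog _) ?_
      omega
    · push Not at hq
      have h1 : Fintype.card V ≤ 25000000 * A ^ 7 := by
        refine hn.trans ?_
        calc A * q ^ 2 ≤ A * (5000 * A ^ 3) ^ 2 :=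
              Nat.mul_le_mul_left _ (Nat.pow_le_pow_left hq.le 2)
          _ = _ := by ring
      obtain ⟨K, hK, hsub⟩ := reach hstep h0 univ (by rw [card_univ]; omega)
      rw [univ_subset_iff] at hsub
      subst hsub
      exact ⟨_, by rw [card_univ]; omega, hK⟩
  obtain ⟨t, ht, hu⟩ := key
  rw [hAch] at hu
  obtain ⟨E, hP, hE, hun⟩ := hu
  refine iso_of_known hP (by omega) fun x => mem_kn.1 ?_
  rw [hun]
  exact mem_univ _

end

end Run7.h33.AF
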